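import Pool.Agent.Run7.h544.Projection

/-!
Flat states with the same projection to a line are connected in the free space.
-/

set_option autoImplicit false

namespace Pool.Agent.Results.MP_17dcc8_co.SameProjection

open Pool.Agent.Run7.h544

/-- Let `p` and `q` be two non-self-intersecting planar states of one fixed-angle linkage (any
graph, in particular any orthogonal tree). If, after congruences `f` of `p` and `g` of `q` into one
plane, they have the same orthogonal projection to a line of this plane, then a motion inside the
free space joins `p` and `q`. -/
theorem result {n : ℕ} (G : SimpleGraph (Fin n)) (p q : Fin n → E3)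
    (hne : ∀ a b, G.Adj a b → p a ≠ p b) (hp : p ∈ FreeSpace G p) (hq : q ∈ FreeSpace G p)
    (f g : E3 ≃ᵢ E3) (hf : ∀ v, f (p v) 2 = 0) (hg : ∀ v, g (q v) 2 = 0)
    (hx : ∀ v, f (p v) 0 = g (q v) 0) :
    JoinedIn (FreeSpace G p) p q :=
  joinedIn_same_projection hne hp hq f g hf hg hx

end Pool.Agent.Results.MP_17dcc8_co.SameProjection
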