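import Pool.Agent.Run7.h544.TwoTurns

/-!
Flat-state connectivity of the orthogonal trees with a bar which meets all perpendicular bars.
-/

set_option autoImplicit false

namespace Pool.Agent.Results.MP_17dcc8_co.TwoTurns

open Pool.Agent.Run7.h544

/-- Let `p` be a flat state of a tree linkage all of whose vertices are reached from one straight
line (the axis) by links orthogonal to the axis followed by links parallel to it. Then every flat
state `q` of this linkage is joined to `p` in the free space: the linkage is flat-state connected. -/
theorem result {n : ℕ} (G : SimpleGraph (Fin n)) (hG : G.IsTree) (p : Fin n → E3)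
    (hne : ∀ a b, G.Adj a b → p a ≠ p b) (hp : p ∈ FreeSpace G p)
    (htt : ReachedByTwoTurns G p) (q : Fin n → E3) (hq : q ∈ FreeSpace G p)
    (hflat : Module.finrank ℝ (vectorSpan ℝ (Set.range q)) ≤ 2) :
    JoinedIn (FreeSpace G p) p q :=
  joined_of_twoTurns hG.connected hne hp htt hq hflat

end Pool.Agent.Results.MP_17dcc8_co.TwoTurns
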